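import Mathlib

/-!
# Abstract lower bound for sums with powers

Helper file for `MP_ca9574_an`.
-/

open Finset

namespace Pool.Agent.V1173.NatBd

/-- Quantitative Vandermonde. -/
theorem vandermonde_bound {K : ℕ} (t : Fin K → ℝ) (ht : Function.Injective t) :
    ∃ c₀ : ℝ, 0 < c₀ ∧ ∀ (y : Fin K → ℂ) (ρ : Fin K),
      ∃ i : Fin K, c₀ * ‖y ρ‖ ≤ ‖∑ j, (t j : ℂ) ^ (i : ℕ) * y j‖ := by
  classical
  let A : (Fin K → ℂ) →ₗ[ℂ] (Fin K → ℂ) :=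
    { toFun := fun y i => ∑ j, (t j : ℂ) ^ (i : ℕ) * y j
      map_add' := by
        intro y z
        funext i
        simp [mul_add, Finset.sum_add_distrib]
      map_smul' := by
        intro a y
        funext i
        simp only [Pi.smul_apply, smul_eq_mul, RingHom.id_apply, Finset.mul_sum]
        refine Finset.sum_congr rfl fun j _ => ?_
        ring }
  have hker : LinearMap.ker A = ⊥ := by
    rw [LinearMap.ker_eq_bot']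
    intro y hy
    have hinj : Function.Injective (fun j => (t j : ℂ)) := fun a b h => ht (by simpa using h)
    refine Matrix.eq_zero_of_forall_pow_sum_mul_pow_eq_zero hinj (fun i => ?_)
    have := congrFun hy i
    simp only [A, LinearMap.coe_mk, AddHom.coe_mk, Pi.zero_apply] at this
    rw [← this]
    refine Finset.sum_congr rfl fun j _ => ?_
    ring
  obtain ⟨C, hC, hanti⟩ := A.exists_antilipschitzWith hker
  refine ⟨(C : ℝ)⁻¹, inv_pos.mpr (by exact_mod_cast hC), ?_⟩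
  intro y ρ
  by_contra hcon
  push Not at hcon
  have hCpos : (0 : ℝ) < C := by exact_mod_cast hC
  have h1 : ‖y‖ ≤ C * ‖A y‖ := by
    have := hanti.le_mul_dist y 0
    simpa using this
  have hpos : 0 < (C : ℝ)⁻¹ * ‖y ρ‖ := (norm_nonneg _).trans_lt (hcon ρ)
  have h2 : ‖A y‖ < (C : ℝ)⁻¹ * ‖y ρ‖ := (pi_norm_lt_iff hpos).mpr fun i => hcon i
  have h4 : ‖y ρ‖ ≤ ‖y‖ := norm_le_pi_norm y ρ
  have h6 : C * ‖A y‖ < C * ((C : ℝ)⁻¹ * ‖y ρ‖) := mul_lt_mul_of_pos_left h2 hCpos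
  rw [← mul_assoc, mul_inv_cancel₀ hCpos.ne', one_mul] at h6
  linarith

theorem pow_diff_le {x y : ℂ} {C : ℝ} (hC : 1 ≤ C) (hx : ‖x‖ ≤ C) (hy : ‖y‖ ≤ C) (k : ℕ) :
    ‖x ^ k - y ^ k‖ ≤ k * C ^ k * ‖x - y‖ := by
  induction k with
  | zero => simp
  | succ k ih =>
    have h1 : x ^ (k + 1) - y ^ (k + 1) = x * (x ^ k - y ^ k) + (x - y) * y ^ k := by ring
    rw [h1]
    have h0 : (0 : ℝ) ≤ C := by linarith
    calc ‖x * (x ^ k - y ^ k) + (x - y) * y ^ k‖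
        ≤ ‖x‖ * ‖x ^ k - y ^ k‖ + ‖x - y‖ * ‖y‖ ^ k := by
          refine (norm_add_le _ _).trans ?_
          rw [norm_mul, norm_mul, norm_pow]
      _ ≤ C * (k * C ^ k * ‖x - y‖) + ‖x - y‖ * C ^ k := by
          gcongr
      _ ≤ C * (k * C ^ k * ‖x - y‖) + ‖x - y‖ * (C ^ k * C) := by
          gcongr
          exact le_mul_of_one_le_right (by positivity) hC
      _ = ((k + 1 : ℕ) : ℝ) * C ^ (k + 1) * ‖x - y‖ := by
          push_cast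
          ring

/-- The abstract lower bound. -/
theorem core_bound {ι : Type*} [DecidableEq ι] {K : ℕ} (t : Fin K → ℝ) (c₀ : ℝ) (hc₀ : 0 ≤ c₀)
    (hV : ∀ (y : Fin K → ℂ) (ρ : Fin K),
      ∃ i : Fin K, c₀ * ‖y ρ‖ ≤ ‖∑ j, (t j : ℂ) ^ (i : ℕ) * y j‖)
    (ht1 : ∀ j, 1 ≤ t j) (ht2 : ∀ j, t j ≤ 2)
    (s : Finset ι) (col : ι → Fin K) (X α : ι → ℂ) (β : ℂ) (A : ℝ) (hA : 1 ≤ A)
    (hα : ∀ q ∈ s, ‖α q‖ ≤ A) (hβ : ‖β‖ ≤ 1)
    (E₁ E₂ x₀ : ℝ) (hE₁ : ∑ q ∈ s, ‖α q - β‖ * ‖X q‖ ≤ E₁)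
    (q₀ : ι) (hq₀ : q₀ ∈ s) (hx₀ : x₀ ≤ ‖X q₀‖)
    (hE₂ : ∑ q ∈ s.filter (fun q => col q = col q₀ ∧ q ≠ q₀), ‖X q‖ ≤ E₂)
    (k₀ : ℕ) :
    ∃ i : Fin K, ‖β‖ ^ (k₀ + (i : ℕ)) * (c₀ * (x₀ - E₂)) -
        2 ^ (k₀ + (i : ℕ)) * (k₀ + (i : ℕ) : ℕ) * A ^ (k₀ + (i : ℕ)) * E₁
      ≤ ‖∑ q ∈ s, ((t (col q) : ℂ) * α q) ^ (k₀ + (i : ℕ)) * X q‖ := by
  classical
  set y : Fin K → ℂ := fun ρ => ∑ q ∈ s.filter (fun q => col q = ρ), X q with hy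
  -- lower bound of y at col q₀
  have hylow : x₀ - E₂ ≤ ‖y (col q₀)‖ := by
    have hsplit : y (col q₀) = X q₀ + ∑ q ∈ s.filter (fun q => col q = col q₀ ∧ q ≠ q₀), X q := by
      rw [hy]
      simp only
      have hmem : q₀ ∈ s.filter (fun q => col q = col q₀) := by simp [hq₀]
      rw [← Finset.add_sum_erase _ _ hmem]
      congr 1
      refine Finset.sum_congr ?_ fun _ _ => rfl
      ext q
      simp only [Finset.mem_erase, Finset.mem_filter]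
      tauto
    rw [hsplit]
    have h1 : ‖∑ q ∈ s.filter (fun q => col q = col q₀ ∧ q ≠ q₀), X q‖ ≤ E₂ :=
      (norm_sum_le _ _).trans hE₂
    have h2 := norm_sub_norm_le (X q₀) (-∑ q ∈ s.filter (fun q => col q = col q₀ ∧ q ≠ q₀), X q)
    rw [norm_neg, sub_neg_eq_add] at h2
    linarith
  obtain ⟨i, hi⟩ := hV (fun ρ => (t ρ : ℂ) ^ k₀ * y ρ) (col q₀)
  refine ⟨i, ?_⟩
  set k := k₀ + (i : ℕ) with hk
  have h1 : ∑ q ∈ s, ((t (col q) : ℂ) * α q) ^ k * X q =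
      β ^ k * (∑ j, (t j : ℂ) ^ (i : ℕ) * ((t j : ℂ) ^ k₀ * y j)) +
      ∑ q ∈ s, (t (col q) : ℂ) ^ k * (α q ^ k - β ^ k) * X q := by
    have h11 : ∑ j, (t j : ℂ) ^ (i : ℕ) * ((t j : ℂ) ^ k₀ * y j) =
        ∑ q ∈ s, (t (col q) : ℂ) ^ k * X q := by
      rw [← Finset.sum_fiberwise s col]
      refine Finset.sum_congr rfl fun j _ => ?_
      rw [hy]
      simp only
      rw [Finset.mul_sum, Finset.mul_sum]
      refine Finset.sum_congr rfl fun q hq => ?_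
      rw [(Finset.mem_filter.mp hq).2, hk, pow_add]
      ring
    rw [h11, Finset.mul_sum, ← Finset.sum_add_distrib]
    refine Finset.sum_congr rfl fun q _ => ?_
    rw [mul_pow]
    ring
  rw [h1]
  have h2 : ‖∑ q ∈ s, (t (col q) : ℂ) ^ k * (α q ^ k - β ^ k) * X q‖ ≤
      2 ^ k * (k : ℕ) * A ^ k * E₁ := by
    refine (norm_sum_le _ _).trans ?_
    have h21 : ∀ q ∈ s, ‖(t (col q) : ℂ) ^ k * (α q ^ k - β ^ k) * X q‖ ≤
        2 ^ k * (k : ℕ) * A ^ k * (‖α q - β‖ * ‖X q‖) := by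
      intro q hq
      rw [norm_mul, norm_mul, norm_pow, Complex.norm_real, Real.norm_eq_abs,
        abs_of_nonneg (by linarith [ht1 (col q)])]
      have h3 := pow_diff_le hA (hα q hq) (hβ.trans hA) k
      have h4 : t (col q) ^ k ≤ 2 ^ k := by
        have := ht1 (col q)
        gcongr
        exact ht2 _
      calc t (col q) ^ k * ‖α q ^ k - β ^ k‖ * ‖X q‖
          ≤ 2 ^ k * (k * A ^ k * ‖α q - β‖) * ‖X q‖ := by gcongr
        _ = _ := by ring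
    calc ∑ q ∈ s, ‖(t (col q) : ℂ) ^ k * (α q ^ k - β ^ k) * X q‖
        ≤ ∑ q ∈ s, 2 ^ k * (k : ℕ) * A ^ k * (‖α q - β‖ * ‖X q‖) := Finset.sum_le_sum h21
      _ = 2 ^ k * (k : ℕ) * A ^ k * ∑ q ∈ s, (‖α q - β‖ * ‖X q‖) := by rw [Finset.mul_sum]
      _ ≤ 2 ^ k * (k : ℕ) * A ^ k * E₁ := by gcongr
  have h3 : ‖β‖ ^ k * (c₀ * (x₀ - E₂)) ≤
      ‖β ^ k * (∑ j, (t j : ℂ) ^ (i : ℕ) * ((t j : ℂ) ^ k₀ * y j))‖ := by
    rw [norm_mul, norm_pow]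
    have h31 : c₀ * (x₀ - E₂) ≤ c₀ * ‖(t (col q₀) : ℂ) ^ k₀ * y (col q₀)‖ := by
      have : ‖y (col q₀)‖ ≤ ‖(t (col q₀) : ℂ) ^ k₀ * y (col q₀)‖ := by
        rw [norm_mul, norm_pow, Complex.norm_real, Real.norm_eq_abs,
          abs_of_nonneg (by linarith [ht1 (col q₀)])]
        exact le_mul_of_one_le_left (norm_nonneg _) (one_le_pow₀ (ht1 _))
      gcongr
      linarith
    have : c₀ * (x₀ - E₂) ≤ ‖∑ j, (t j : ℂ) ^ (i : ℕ) * ((t j : ℂ) ^ k₀ * y j)‖ := h31.trans hi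
    gcongr
  have h4 := norm_sub_norm_le (β ^ k * (∑ j, (t j : ℂ) ^ (i : ℕ) * ((t j : ℂ) ^ k₀ * y j)))
    (-∑ q ∈ s, (t (col q) : ℂ) ^ k * (α q ^ k - β ^ k) * X q)
  rw [norm_neg, sub_neg_eq_add] at h4
  linarith

end Pool.Agent.V1173.NatBd
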