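import Pool.Agent.V1173.NatBd.Core

/-!
# Grids in `ℂⁿ`

Helper file for `MP_ca9574_an`.
-/

open Finset

namespace Pool.Agent.V1173.NatBd

open scoped InnerProductSpace

/-- The Euclidean space `ℂⁿ`. -/
abbrev Cn (n : ℕ) := EuclideanSpace ℂ (Fin n)

/-- Grid indices. -/
abbrev Q (n : ℕ) := Fin n → ℤ × ℤ

/-- Grid point. -/
noncomputable def pt {n : ℕ} (D : ℝ) (q : Q n) : Cn n :=
  WithLp.toLp 2 (fun i => (⟨(q i).1 / D, (q i).2 / D⟩ : ℂ))

theorem norm_sq_pt_sub {n : ℕ} (D : ℝ) (q : Q n) (ζ : Cn n) :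
    ‖pt D q - ζ‖ ^ 2 = ∑ i, (((q i).1 / D - (ζ i).re) ^ 2 + ((q i).2 / D - (ζ i).im) ^ 2) := by
  rw [EuclideanSpace.norm_sq_eq]
  refine Finset.sum_congr rfl fun i _ => ?_
  rw [← Complex.normSq_eq_norm_sq, Complex.normSq_apply]
  simp [pt, sq]

theorem norm_exp_eq {n : ℕ} (s : ℝ) (ξ z : Cn n) (hz : ‖z‖ = 1) :
    ‖Complex.exp ((s : ℂ) * (⟪ξ, z⟫_ℂ - (((‖ξ‖ ^ 2 + 1) / 2 : ℝ) : ℂ)))‖ =
      Real.exp (-(s * ‖ξ - z‖ ^ 2 / 2)) := by
  rw [Complex.norm_exp]
  congr 1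
  rw [Complex.re_ofReal_mul, Complex.sub_re, Complex.ofReal_re, @norm_sub_sq ℂ, hz]
  simp only [RCLike.re_to_complex]
  ring

/-- The colouring of the grid by residues. -/
theorem exists_col (n L : ℕ) (hL : 0 < L) :
    ∃ (K : ℕ) (col : Q n → Fin K), ∀ q q', col q = col q' →
      ∀ i, (L : ℤ) ∣ (q i).1 - (q' i).1 ∧ (L : ℤ) ∣ (q i).2 - (q' i).2 := by
  classical
  have : NeZero L := ⟨hL.ne'⟩
  let e := Fintype.equivFin (Fin n → ZMod L × ZMod L)
  refine ⟨_, fun q => e (fun i => (((q i).1 : ZMod L), ((q i).2 : ZMod L))), ?_⟩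
  intro q q' h i
  have h1 := congrFun (e.injective h) i
  simp only [Prod.mk.injEq] at h1
  constructor
  · rw [← ZMod.intCast_zmod_eq_zero_iff_dvd]
    push_cast
    rw [h1.1, sub_self]
  · rw [← ZMod.intCast_zmod_eq_zero_iff_dvd]
    push_cast
    rw [h1.2, sub_self]

/-- The box. -/
noncomputable def box (n : ℕ) (R : ℕ) : Finset (Q n) :=
  Fintype.piFinset fun _ => (Finset.Icc (-(R : ℤ)) R) ×ˢ (Finset.Icc (-(R : ℤ)) R)

theorem mem_box {n R : ℕ} {q : Q n} : q ∈ box n R ↔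
    ∀ i, (-(R : ℤ) ≤ (q i).1 ∧ (q i).1 ≤ R) ∧ (-(R : ℤ) ≤ (q i).2 ∧ (q i).2 ≤ R) := by
  simp [box, Fintype.mem_piFinset, Finset.mem_product, Finset.mem_Icc]

theorem card_box (n R : ℕ) : (box n R).card = (2 * R + 1) ^ (2 * n) := by
  rw [box, Fintype.card_piFinset]
  simp only [Finset.card_product, Int.card_Icc, Finset.prod_const, Finset.card_univ,
    Fintype.card_fin]
  have : (R + 1 - -(R : ℤ)).toNat = 2 * R + 1 := by
    have : (R + 1 - -(R : ℤ)) = ((2 * R + 1 : ℕ) : ℤ) := by push_cast; ring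
    rw [this, Int.toNat_natCast]
  rw [this, ← sq, ← pow_mul]

/-- `q` is near `ζ`. -/
def Near {n : ℕ} (D L : ℝ) (ζ : Cn n) (q : Q n) : Prop :=
  ∀ i, |(q i).1 / D - (ζ i).re| < L / (2 * D) ∧ |(q i).2 / D - (ζ i).im| < L / (2 * D)

theorem near_norm {n : ℕ} (hn : 0 < n) {D L : ℝ} (hD : 0 < D) (hL : 0 < L) {ζ : Cn n} {q : Q n}
    (h : Near D L ζ q) : ‖pt D q - ζ‖ ≤ n * L / D := by
  have h1 : ‖pt D q - ζ‖ ^ 2 ≤ (n * L / D) ^ 2 := by
    rw [norm_sq_pt_sub]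
    have h2 : ∀ i ∈ (Finset.univ : Finset (Fin n)),
        ((q i).1 / D - (ζ i).re) ^ 2 + ((q i).2 / D - (ζ i).im) ^ 2 ≤ 2 * (L / (2 * D)) ^ 2 := by
      intro i _
      have h3 := sq_le_sq' (abs_lt.mp (h i).1).1.le (abs_lt.mp (h i).1).2.le
      have h4 := sq_le_sq' (abs_lt.mp (h i).2).1.le (abs_lt.mp (h i).2).2.le
      linarith
    refine (Finset.sum_le_sum h2).trans ?_
    rw [Finset.sum_const, Finset.card_univ, Fintype.card_fin, nsmul_eq_mul]
    have h5 : (1 : ℝ) ≤ n := by exact_mod_cast hn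
    have h6 : n * (2 * (L / (2 * D)) ^ 2) = n * (L / D) ^ 2 / 2 := by
      field_simp
    have h7 : (n * L / D) ^ 2 = n * n * (L / D) ^ 2 := by
      field_simp
    rw [h6, h7]
    have h8 : 0 ≤ (L / D) ^ 2 := by positivity
    have h9 : (n : ℝ) * 1 ≤ n * n := by gcongr
    have h10 : n * (L / D) ^ 2 ≤ n * n * (L / D) ^ 2 := by
      rw [mul_one] at h9
      gcongr
    have h11 : 0 ≤ n * (L / D) ^ 2 := by positivity
    linarith
  exact (pow_le_pow_iff_left₀ (norm_nonneg _) (by positivity) two_ne_zero).mp h1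

theorem far_norm {n : ℕ} {D L : ℝ} (hD : 0 < D) (hL : 0 < L) {ζ : Cn n} {q : Q n}
    (h : ¬ Near D L ζ q) : L ^ 2 / (4 * D ^ 2) ≤ ‖pt D q - ζ‖ ^ 2 := by
  rw [norm_sq_pt_sub]
  unfold Near at h
  push Not at h
  obtain ⟨i, hi⟩ := h
  have h1 : L ^ 2 / (4 * D ^ 2) ≤
      ((q i).1 / D - (ζ i).re) ^ 2 + ((q i).2 / D - (ζ i).im) ^ 2 := by
    have h2 : L ^ 2 / (4 * D ^ 2) = (L / (2 * D)) ^ 2 := by
      field_simp
      ring
    rw [h2]
    have hpos : 0 ≤ L / (2 * D) := by positivity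
    by_cases hc : |(q i).1 / D - (ζ i).re| < L / (2 * D)
    · have h3 := hi hc
      have h4 : (L / (2 * D)) ^ 2 ≤ |(q i).2 / D - (ζ i).im| ^ 2 := by gcongr
      rw [sq_abs] at h4
      nlinarith [sq_nonneg ((q i).1 / D - (ζ i).re)]
    · push Not at hc
      have h4 : (L / (2 * D)) ^ 2 ≤ |(q i).1 / D - (ζ i).re| ^ 2 := by gcongr
      rw [sq_abs] at h4
      nlinarith [sq_nonneg ((q i).2 / D - (ζ i).im)]
  refine h1.trans ?_
  exact Finset.single_le_sum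
    (f := fun i => ((q i).1 / D - (ζ i).re) ^ 2 + ((q i).2 / D - (ζ i).im) ^ 2)
    (fun j _ => by positivity) (Finset.mem_univ i)

theorem int_eq_of_dvd {L : ℕ} {D x : ℝ} (hD : 0 < D) {a b : ℤ} (hdvd : (L : ℤ) ∣ a - b)
    (ha : |a / D - x| < L / (2 * D)) (hb : |b / D - x| < L / (2 * D)) : a = b := by
  have h1 : |((a - b : ℤ) : ℝ)| < L := by
    have h2 : |(a / D - x) - (b / D - x)| < L / D := by
      have h3 := abs_sub (a / D - x) (b / D - x)
      have h4 : (L : ℝ) / (2 * D) + L / (2 * D) = L / D := by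
        field_simp
        ring
      linarith
    have h5 : (a / D - x) - (b / D - x) = ((a - b : ℤ) : ℝ) / D := by
      push_cast
      ring
    rw [h5, abs_div, abs_of_pos hD, div_lt_div_iff_of_pos_right hD] at h2
    exact h2
  have h6 : |a - b| < (L : ℤ) := by exact_mod_cast h1
  have := Int.eq_zero_of_abs_lt_dvd hdvd h6
  omega

theorem near_injOn {n L K : ℕ} {D : ℝ} (hD : 0 < D) {col : Q n → Fin K}
    (hcol : ∀ q q', col q = col q' →
      ∀ i, (L : ℤ) ∣ (q i).1 - (q' i).1 ∧ (L : ℤ) ∣ (q i).2 - (q' i).2) (ζ : Cn n)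
    {q q' : Q n} (hq : Near D L ζ q) (hq' : Near D L ζ q') (h : col q = col q') : q = q' := by
  funext i
  have h1 := hcol q q' h i
  exact Prod.ext (int_eq_of_dvd hD h1.1 (hq i).1 (hq' i).1)
    (int_eq_of_dvd hD h1.2 (hq i).2 (hq' i).2)

/-- the first error bound -/
theorem E1_bound {n L K : ℕ} (hn : 0 < n) (hL : 0 < L) {D : ℝ} (hD : 0 < D) {col : Q n → Fin K}
    (hcol : ∀ q q', col q = col q' →
      ∀ i, (L : ℤ) ∣ (q i).1 - (q' i).1 ∧ (L : ℤ) ∣ (q i).2 - (q' i).2) (ζ : Cn n)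
    (s : Finset (Q n)) (W : ℝ) (hW : ∀ q ∈ s, ‖pt D q - ζ‖ ≤ W) (N : ℝ) (hN : 0 ≤ N)
    (X : Q n → ℂ) (hX : ∀ q ∈ s, ‖X q‖ ≤ Real.exp (-(N * ‖pt D q - ζ‖ ^ 2 / 2))) :
    ∑ q ∈ s, ‖pt D q - ζ‖ * ‖X q‖ ≤
      K * (n * L / D) + s.card * (W * Real.exp (-(N * (L ^ 2 / (8 * D ^ 2))))) := by
  classical
  have hLr : (0 : ℝ) < L := by exact_mod_cast hL
  rw [← Finset.sum_filter_add_sum_filter_not s (fun q => Near D L ζ q)]
  refine add_le_add ?_ ?_
  · have h1 : ∀ q ∈ s.filter (fun q => Near D L ζ q), ‖pt D q - ζ‖ * ‖X q‖ ≤ n * L / D := by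
      intro q hq
      rw [Finset.mem_filter] at hq
      have h2 := near_norm hn hD hLr hq.2
      have h3 : ‖X q‖ ≤ 1 := (hX q hq.1).trans (by
        rw [Real.exp_le_one_iff]
        have : 0 ≤ N * ‖pt D q - ζ‖ ^ 2 / 2 := by positivity
        linarith)
      calc ‖pt D q - ζ‖ * ‖X q‖ ≤ (n * L / D) * 1 := by gcongr
        _ = n * L / D := mul_one _
    refine (Finset.sum_le_sum h1).trans ?_
    rw [Finset.sum_const, nsmul_eq_mul]
    have h4 : (s.filter (fun q => Near D L ζ q)).card ≤ K := by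
      have := Finset.card_le_card_of_injOn (s := s.filter (fun q => Near D L ζ q))
        (t := (Finset.univ : Finset (Fin K))) col (fun _ _ => Finset.mem_coe.mpr (Finset.mem_univ _))
        (fun q hq q' hq' h => near_injOn hD hcol ζ
          (Finset.mem_filter.mp (Finset.mem_coe.mp hq)).2
          (Finset.mem_filter.mp (Finset.mem_coe.mp hq')).2 h)
      simpa using this
    have h5 : ((s.filter (fun q => Near D L ζ q)).card : ℝ) ≤ K := by exact_mod_cast h4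
    gcongr
  · have h1 : ∀ q ∈ s.filter (fun q => ¬ Near D L ζ q), ‖pt D q - ζ‖ * ‖X q‖ ≤
        W * Real.exp (-(N * (L ^ 2 / (8 * D ^ 2)))) := by
      intro q hq
      rw [Finset.mem_filter] at hq
      have h2 := far_norm hD hLr hq.2
      have h3 : ‖X q‖ ≤ Real.exp (-(N * (L ^ 2 / (8 * D ^ 2)))) := (hX q hq.1).trans (by
        rw [Real.exp_le_exp]
        have : N * (L ^ 2 / (8 * D ^ 2)) ≤ N * ‖pt D q - ζ‖ ^ 2 / 2 := by
          have h4 : (L : ℝ) ^ 2 / (8 * D ^ 2) = L ^ 2 / (4 * D ^ 2) / 2 := by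
            field_simp
            ring
          rw [h4, mul_div_assoc]
          gcongr
        linarith)
      have hW0 : 0 ≤ W := (norm_nonneg _).trans (hW q hq.1)
      exact mul_le_mul (hW q hq.1) h3 (norm_nonneg _) hW0
    refine (Finset.sum_le_sum h1).trans ?_
    rw [Finset.sum_const, nsmul_eq_mul]
    by_cases hs : s.Nonempty
    · obtain ⟨q, hq⟩ := hs
      have hW0 : 0 ≤ W := (norm_nonneg _).trans (hW q hq)
      gcongr
      exact Finset.filter_subset _ _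
    · rw [Finset.not_nonempty_iff_eq_empty] at hs
      subst hs
      simp

/-- the nearest grid point -/
noncomputable def nearest {n : ℕ} (D : ℝ) (ζ : Cn n) : Q n :=
  fun i => (round (D * (ζ i).re), round (D * (ζ i).im))

theorem nearest_abs {D x : ℝ} (hD : 0 < D) : |(round (D * x) : ℝ) / D - x| ≤ 1 / (2 * D) := by
  have h1 := abs_sub_round (D * x)
  have h2 : (round (D * x) : ℝ) / D - x = -((D * x - round (D * x)) / D) := by
    field_simp
    ring
  rw [h2, abs_neg, abs_div, abs_of_pos hD, div_le_div_iff₀ hD (by positivity)]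
  nlinarith

theorem nearest_norm {n : ℕ} {D : ℝ} (hD : 0 < D) (ζ : Cn n) :
    ‖pt D (nearest D ζ) - ζ‖ ^ 2 ≤ n / (2 * D ^ 2) := by
  rw [norm_sq_pt_sub]
  have h2 : ∀ i ∈ (Finset.univ : Finset (Fin n)),
      ((nearest D ζ i).1 / D - (ζ i).re) ^ 2 + ((nearest D ζ i).2 / D - (ζ i).im) ^ 2
        ≤ 2 * (1 / (2 * D)) ^ 2 := by
    intro i _
    have h3 := nearest_abs (x := (ζ i).re) hD
    have h4 := nearest_abs (x := (ζ i).im) hD
    have h5 := sq_le_sq' (abs_le.mp h3).1 (abs_le.mp h3).2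
    have h6 := sq_le_sq' (abs_le.mp h4).1 (abs_le.mp h4).2
    simp only [nearest]
    linarith
  refine (Finset.sum_le_sum h2).trans ?_
  rw [Finset.sum_const, Finset.card_univ, Fintype.card_fin, nsmul_eq_mul]
  apply le_of_eq
  field_simp

theorem nearest_mem_box {n : ℕ} {D : ℕ} (hD : 1 ≤ D) {ζ : Cn n} (hζ : ‖ζ‖ ≤ 1) :
    nearest (D : ℝ) ζ ∈ box n (2 * D) := by
  rw [mem_box]
  intro i
  have h0 : ‖ζ i‖ ≤ 1 := (PiLp.norm_apply_le ζ i).trans hζ
  have hre : |(ζ i).re| ≤ 1 := (Complex.abs_re_le_norm _).trans h0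
  have him : |(ζ i).im| ≤ 1 := (Complex.abs_im_le_norm _).trans h0
  have hD' : (1 : ℝ) ≤ D := by exact_mod_cast hD
  have key : ∀ x : ℝ, |x| ≤ 1 → -((2 * D : ℕ) : ℤ) ≤ round ((D : ℝ) * x) ∧
      round ((D : ℝ) * x) ≤ ((2 * D : ℕ) : ℤ) := by
    intro x hx
    have h1 := abs_le.mp (abs_sub_round ((D : ℝ) * x))
    have h2 := abs_le.mp hx
    have h3 : (D : ℝ) * x ≤ D := by nlinarith
    have h4 : -(D : ℝ) ≤ D * x := by nlinarith
    constructor
    · have : (-((2 * D : ℕ) : ℝ)) ≤ (round ((D : ℝ) * x) : ℝ) := by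
        push_cast
        linarith
      exact_mod_cast this
    · have : (round ((D : ℝ) * x) : ℝ) ≤ ((2 * D : ℕ) : ℝ) := by
        push_cast
        linarith
      exact_mod_cast this
  exact ⟨key _ hre, key _ him⟩

/-- other points with the same colour as the nearest point are far -/
theorem far_of_col {n L K : ℕ} (hL : 2 ≤ L) {D : ℝ} (hD : 0 < D) {col : Q n → Fin K}
    (hcol : ∀ q q', col q = col q' →
      ∀ i, (L : ℤ) ∣ (q i).1 - (q' i).1 ∧ (L : ℤ) ∣ (q i).2 - (q' i).2) (ζ : Cn n)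
    {q : Q n} (h : col q = col (nearest D ζ)) (hne : q ≠ nearest D ζ) : ¬ Near D L ζ q := by
  intro hnear
  apply hne
  refine near_injOn hD hcol ζ hnear ?_ h
  intro i
  have hL' : (2 : ℝ) ≤ L := by exact_mod_cast hL
  have h3 := nearest_abs (x := (ζ i).re) hD
  have h4 := nearest_abs (x := (ζ i).im) hD
  have h5 : 1 / (2 * D) < (L : ℝ) / (2 * D) := by
    apply div_lt_div_of_pos_right _ (by positivity)
    linarith
  exact ⟨h3.trans_lt h5, h4.trans_lt h5⟩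

theorem norm_pt_le {n : ℕ} (hn : 0 < n) {D : ℕ} (hD : 1 ≤ D) {q : Q n} (hq : q ∈ box n (2 * D)) :
    ‖pt (D : ℝ) q‖ ≤ 4 * n := by
  rw [mem_box] at hq
  have hD' : (0 : ℝ) < D := by exact_mod_cast hD
  have hn' : (1 : ℝ) ≤ n := by exact_mod_cast hn
  have h1 : ‖pt (D : ℝ) q‖ ^ 2 ≤ (4 * n) ^ 2 := by
    have h2 := norm_sq_pt_sub (D : ℝ) q 0
    rw [sub_zero] at h2
    rw [h2]
    have h3 : ∀ i ∈ (Finset.univ : Finset (Fin n)),
        ((q i).1 / (D : ℝ) - ((0 : Cn n) i).re) ^ 2 + ((q i).2 / (D : ℝ) - ((0 : Cn n) i).im) ^ 2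
          ≤ 8 := by
      intro i _
      have key : ∀ a : ℤ, (-((2 * D : ℕ) : ℤ) ≤ a ∧ a ≤ ((2 * D : ℕ) : ℤ)) →
          ((a : ℝ) / D) ^ 2 ≤ 4 := by
        intro a ha
        have h4 : (-((2 * D : ℕ) : ℝ)) ≤ (a : ℝ) := by exact_mod_cast ha.1
        have h5 : (a : ℝ) ≤ ((2 * D : ℕ) : ℝ) := by exact_mod_cast ha.2
        push_cast at h4 h5
        rw [div_pow, div_le_iff₀ (by positivity)]
        nlinarith
      have h6 := key _ (hq i).1
      have h7 := key _ (hq i).2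
      simp only [PiLp.zero_apply, Complex.zero_re, Complex.zero_im, sub_zero]
      linarith
    refine (Finset.sum_le_sum h3).trans ?_
    rw [Finset.sum_const, Finset.card_univ, Fintype.card_fin, nsmul_eq_mul]
    nlinarith
  exact (pow_le_pow_iff_left₀ (norm_nonneg _) (by positivity) two_ne_zero).mp h1

end Pool.Agent.V1173.NatBd
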