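import Pool.Agent.V1173.NatBd.Grid

/-!
# One stage of the construction

Helper file for `MP_ca9574_an`.
-/

open Finset

namespace Pool.Agent.V1173.NatBd

open scoped InnerProductSpace

/-- The lower bound for one exponential sum, with explicit errors. -/
theorem stage_lower {n : ℕ} (hn : 0 < n) {K : ℕ} (t : Fin K → ℝ) (c₀ : ℝ) (hc₀ : 0 ≤ c₀)
    (hV : ∀ (y : Fin K → ℂ) (ρ : Fin K),
      ∃ i : Fin K, c₀ * ‖y ρ‖ ≤ ‖∑ j, (t j : ℂ) ^ (i : ℕ) * y j‖)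
    (ht1 : ∀ j, 1 ≤ t j) (ht2 : ∀ j, t j ≤ 2) (col : Q n → Fin K)
    (hcol : ∀ q q', col q = col q' →
      ∀ i, ((8 * n : ℕ) : ℤ) ∣ (q i).1 - (q' i).1 ∧ ((8 * n : ℕ) : ℤ) ∣ (q i).2 - (q' i).2)
    (P : ℕ) (hP : 1 ≤ P) (N : ℝ) (hN : N = 2 * (P : ℝ) ^ 4 * Real.log P / n)
    (ζ v : Cn n) (hζ : ‖ζ‖ = 1) (hv : ‖v‖ ≤ 1) (k₀ : ℕ) :
    ∃ i : Fin K, ‖⟪ζ, v⟫_ℂ‖ ^ (k₀ + (i : ℕ)) * (c₀ * (1 / (P : ℝ) - 25 ^ n / (P : ℝ) ^ 2)) -
        2 ^ (k₀ + (i : ℕ)) * (k₀ + (i : ℕ) : ℕ) * (4 * n : ℝ) ^ (k₀ + (i : ℕ)) *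
          ((K * (n * (8 * n)) + (4 * n + 1) * 25 ^ n) / (P : ℝ) ^ 2)
      ≤ ‖∑ q ∈ box n (2 * P ^ 2), ((t (col q) : ℂ) * ⟪pt ((P ^ 2 : ℕ) : ℝ) q, v⟫_ℂ) ^ (k₀ + (i : ℕ)) *
          Complex.exp (((N * t (col q) : ℝ) : ℂ) * (⟪pt ((P ^ 2 : ℕ) : ℝ) q, ζ⟫_ℂ -
            (((‖pt ((P ^ 2 : ℕ) : ℝ) q‖ ^ 2 + 1) / 2 : ℝ) : ℂ)))‖ := by
  classical
  have hn' : (1 : ℝ) ≤ n := by exact_mod_cast hn
  have hP' : (1 : ℝ) ≤ P := by exact_mod_cast hP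
  have hPpos : (0 : ℝ) < P := by linarith
  have hlog : 0 ≤ Real.log P := Real.log_nonneg hP'
  have hN0 : 0 ≤ N := by rw [hN]; positivity
  set D : ℕ := P ^ 2 with hDdef
  have hD1 : 1 ≤ D := Nat.one_le_pow _ _ hP
  have hDr : (D : ℝ) = (P : ℝ) ^ 2 := by rw [hDdef]; push_cast; rfl
  have hDpos : (0 : ℝ) < D := by rw [hDr]; positivity
  set X : Q n → ℂ := fun q => Complex.exp (((N * t (col q) : ℝ) : ℂ) * (⟪pt (D : ℝ) q, ζ⟫_ℂ -
            (((‖pt (D : ℝ) q‖ ^ 2 + 1) / 2 : ℝ) : ℂ))) with hX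
  have hXn : ∀ q, ‖X q‖ = Real.exp (-(N * t (col q) * ‖pt (D : ℝ) q - ζ‖ ^ 2 / 2)) := by
    intro q
    rw [hX]
    exact norm_exp_eq _ _ _ hζ
  have hXle : ∀ q, ‖X q‖ ≤ Real.exp (-(N * ‖pt (D : ℝ) q - ζ‖ ^ 2 / 2)) := by
    intro q
    rw [hXn, Real.exp_le_exp]
    have h1 : N * 1 * ‖pt (D : ℝ) q - ζ‖ ^ 2 / 2 ≤ N * t (col q) * ‖pt (D : ℝ) q - ζ‖ ^ 2 / 2 := by
      have := ht1 (col q)
      gcongr
    linarith
  -- far exponent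
  have hfar : Real.exp (-(N * (((8 * n : ℕ) : ℝ) ^ 2 / (8 * (D : ℝ) ^ 2)))) =
      1 / (P : ℝ) ^ (16 * n) := by
    have h1 : N * (((8 * n : ℕ) : ℝ) ^ 2 / (8 * (D : ℝ) ^ 2)) = ((16 * n : ℕ) : ℝ) * Real.log P := by
      rw [hN, hDr]
      push_cast
      field_simp
      ring
    rw [h1, Real.exp_neg, Real.exp_nat_mul, Real.exp_log hPpos, one_div]
  have hcard : ((box n (2 * D)).card : ℝ) ≤ 25 ^ n * (P : ℝ) ^ (4 * n) := by
    rw [card_box]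
    push_cast
    rw [hDr]
    have h1 : (2 * (2 * (P : ℝ) ^ 2) + 1) ≤ 5 * (P : ℝ) ^ 2 := by nlinarith
    calc (2 * (2 * (P : ℝ) ^ 2) + 1) ^ (2 * n) ≤ (5 * (P : ℝ) ^ 2) ^ (2 * n) := by gcongr
      _ = 25 ^ n * (P : ℝ) ^ (4 * n) := by
        rw [mul_pow, ← pow_mul, pow_mul 5 2 n]
        norm_num
        congr 1
        ring
  have hsmall : ((box n (2 * D)).card : ℝ) * (1 / (P : ℝ) ^ (16 * n)) ≤ 25 ^ n / (P : ℝ) ^ 2 := by
    calc ((box n (2 * D)).card : ℝ) * (1 / (P : ℝ) ^ (16 * n))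
        ≤ (25 ^ n * (P : ℝ) ^ (4 * n)) * (1 / (P : ℝ) ^ (16 * n)) := by gcongr
      _ = 25 ^ n * ((P : ℝ) ^ (4 * n) / (P : ℝ) ^ (16 * n)) := by ring
      _ ≤ 25 ^ n * (1 / (P : ℝ) ^ 2) := by
        have h2 : (P : ℝ) ^ (4 * n) / (P : ℝ) ^ (16 * n) ≤ 1 / (P : ℝ) ^ 2 := by
          rw [div_le_div_iff₀ (by positivity) (by positivity), one_mul, ← pow_add]
          exact pow_le_pow_right₀ hP' (by omega)
        exact mul_le_mul_of_nonneg_left h2 (by positivity)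
      _ = _ := by ring
  have hW : ∀ q ∈ box n (2 * D), ‖pt (D : ℝ) q - ζ‖ ≤ 4 * n + 1 := by
    intro q hq
    have h1 := norm_pt_le hn hD1 hq
    have h2 := norm_sub_le (pt (D : ℝ) q) ζ
    rw [hζ] at h2
    linarith
  have hE₁ := E1_bound (L := 8 * n) hn (by omega) hDpos hcol ζ (box n (2 * D)) (4 * n + 1) hW N hN0 X
    (fun q _ => hXle q)
  rw [hfar] at hE₁
  have hE₁' : ∑ q ∈ box n (2 * D), ‖⟪pt (D : ℝ) q, v⟫_ℂ - ⟪ζ, v⟫_ℂ‖ * ‖X q‖ ≤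
      (K * (n * (8 * n)) + (4 * n + 1) * 25 ^ n) / (P : ℝ) ^ 2 := by
    have h1 : ∑ q ∈ box n (2 * D), ‖⟪pt (D : ℝ) q, v⟫_ℂ - ⟪ζ, v⟫_ℂ‖ * ‖X q‖ ≤
        ∑ q ∈ box n (2 * D), ‖pt (D : ℝ) q - ζ‖ * ‖X q‖ := by
      refine Finset.sum_le_sum fun q _ => ?_
      have h2 : ‖⟪pt (D : ℝ) q, v⟫_ℂ - ⟪ζ, v⟫_ℂ‖ ≤ ‖pt (D : ℝ) q - ζ‖ := by
        rw [← inner_sub_left]
        refine (norm_inner_le_norm _ _).trans ?_
        exact mul_le_of_le_one_right (norm_nonneg _) hv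
      gcongr
    refine h1.trans (hE₁.trans ?_)
    have h3 : ((box n (2 * D)).card : ℝ) * ((4 * n + 1) * (1 / (P : ℝ) ^ (16 * n))) ≤
        (4 * n + 1) * (25 ^ n / (P : ℝ) ^ 2) := by
      calc ((box n (2 * D)).card : ℝ) * ((4 * n + 1) * (1 / (P : ℝ) ^ (16 * n)))
          = (4 * n + 1) * (((box n (2 * D)).card : ℝ) * (1 / (P : ℝ) ^ (16 * n))) := by ring
        _ ≤ _ := by gcongr
    rw [hDr]
    push_cast
    have h4 : (K * (n * (8 * n) / (P : ℝ) ^ 2)) + (4 * n + 1) * (25 ^ n / (P : ℝ) ^ 2) =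
      (K * (n * (8 * n)) + (4 * n + 1) * 25 ^ n) / (P : ℝ) ^ 2 := by ring
    linarith
  have hq₀ : nearest (D : ℝ) ζ ∈ box n (2 * D) := nearest_mem_box hD1 hζ.le
  have hx₀ : 1 / (P : ℝ) ≤ ‖X (nearest (D : ℝ) ζ)‖ := by
    rw [hXn]
    have h1 := nearest_norm hDpos ζ
    have h2 : 1 / (P : ℝ) = Real.exp (-Real.log P) := by
      rw [Real.exp_neg, Real.exp_log hPpos, one_div]
    rw [h2, Real.exp_le_exp, neg_le_neg_iff]
    calc N * t (col (nearest (D : ℝ) ζ)) * ‖pt (D : ℝ) (nearest (D : ℝ) ζ) - ζ‖ ^ 2 / 2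
        ≤ N * 2 * (n / (2 * (D : ℝ) ^ 2)) / 2 := by
          have := ht2 (col (nearest (D : ℝ) ζ))
          gcongr
      _ = Real.log P := by
        rw [hN, hDr]
        field_simp
  have hE₂ : ∑ q ∈ (box n (2 * D)).filter (fun q => col q = col (nearest (D : ℝ) ζ) ∧
      q ≠ nearest (D : ℝ) ζ), ‖X q‖ ≤ 25 ^ n / (P : ℝ) ^ 2 := by
    have h1 : ∀ q ∈ (box n (2 * D)).filter (fun q => col q = col (nearest (D : ℝ) ζ) ∧
      q ≠ nearest (D : ℝ) ζ), ‖X q‖ ≤ 1 / (P : ℝ) ^ (16 * n) := by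
      intro q hq
      rw [Finset.mem_filter] at hq
      have h2 := far_of_col (L := 8 * n) (by omega) hDpos hcol ζ hq.2.1 hq.2.2
      have h3 := far_norm hDpos (by positivity) h2
      rw [← hfar]
      refine (hXle q).trans ?_
      rw [Real.exp_le_exp, neg_le_neg_iff, mul_div_assoc]
      have h4 : ((8 * n : ℕ) : ℝ) ^ 2 / (8 * (D : ℝ) ^ 2) = ((8 * n : ℕ) : ℝ) ^ 2 / (4 * (D : ℝ) ^ 2) / 2 := by
        field_simp
        ring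
      rw [h4]
      gcongr
    refine (Finset.sum_le_sum h1).trans ?_
    rw [Finset.sum_const, nsmul_eq_mul]
    refine le_trans ?_ hsmall
    gcongr
    exact Finset.filter_subset _ _
  have hcore := core_bound t c₀ hc₀ hV ht1 ht2 (box n (2 * D)) col X
    (fun q => ⟪pt (D : ℝ) q, v⟫_ℂ) ⟪ζ, v⟫_ℂ (4 * n) (by linarith)
    (fun q hq => ?_) ?_ ((K * (n * (8 * n)) + (4 * n + 1) * 25 ^ n) / (P : ℝ) ^ 2)
    (25 ^ n / (P : ℝ) ^ 2) (1 / (P : ℝ)) hE₁' (nearest (D : ℝ) ζ) hq₀ hx₀ hE₂ k₀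
  · exact hcore
  · refine (norm_inner_le_norm _ _).trans ?_
    have h1 := norm_pt_le hn hD1 hq
    calc ‖pt (D : ℝ) q‖ * ‖v‖ ≤ (4 * n) * 1 := by gcongr
      _ = 4 * n := mul_one _
  · refine (norm_inner_le_norm _ _).trans ?_
    rw [hζ, one_mul]
    exact hv

/-- The stage lemma. -/
theorem stage {n : ℕ} (hn : 0 < n) (M m : ℕ) (hm : 0 < m) (ε : ℝ) (hε : 0 < ε) :
    ∃ kmax : ℕ, M ≤ kmax ∧ ∀ B : ℝ, ∃ (s : Finset (Q n)) (w : Q n → Cn n) (c : Q n → ℂ),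
      (∀ k ≤ M, ∑ q ∈ s, ‖c q‖ * ‖w q‖ ^ k * Real.exp ‖w q‖ ≤ ε) ∧
      ∀ ζ v : Cn n, ‖ζ‖ = 1 → ‖v‖ ≤ 1 → 1 / (m : ℝ) ≤ ‖⟪ζ, v⟫_ℂ‖ →
        ∃ k, k ≤ kmax ∧ B ≤ ‖∑ q ∈ s, c q * ⟪w q, v⟫_ℂ ^ k * Complex.exp ⟪w q, ζ⟫_ℂ‖ := by
  classical
  obtain ⟨K, col, hcol⟩ := exists_col n (8 * n) (by omega)
  have hK : 0 < K := (col 0).pos
  have hKr : (0 : ℝ) < K := by exact_mod_cast hK
  set t : Fin K → ℝ := fun i => 1 + (i : ℝ) / K with ht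
  have htinj : Function.Injective t := by
    intro i j hij
    simp only [ht] at hij
    have h1 : (i : ℝ) / K = (j : ℝ) / K := by linarith
    rw [div_left_inj' hKr.ne'] at h1
    exact Fin.ext (by exact_mod_cast h1)
  have ht1 : ∀ j, 1 ≤ t j := by
    intro j
    simp only [ht]
    have : 0 ≤ (j : ℝ) / K := by positivity
    linarith
  have ht2 : ∀ j, t j ≤ 2 := by
    intro j
    simp only [ht]
    have : (j : ℝ) / K ≤ 1 := by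
      rw [div_le_one hKr]
      exact_mod_cast j.2.le
    linarith
  obtain ⟨c₀, hc₀, hV⟩ := vandermonde_bound t htinj
  set k₀ := M + n + 1 with hk₀
  refine ⟨k₀ + K, by omega, ?_⟩
  intro B
  have hn' : (1 : ℝ) ≤ n := by exact_mod_cast hn
  have hm' : (1 : ℝ) ≤ m := by exact_mod_cast hm
  set c₁ : ℝ := (1 / (m : ℝ)) ^ (k₀ + K) * c₀ with hc₁
  have hc₁pos : 0 < c₁ := by positivity
  set C₂ : ℝ := c₁ * 25 ^ n + 2 ^ (k₀ + K) * (k₀ + K : ℕ) * (4 * n : ℝ) ^ (k₀ + K) *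
    (K * (n * (8 * n)) + (4 * n + 1) * 25 ^ n) with hC₂
  obtain ⟨P, hPbig⟩ := exists_nat_ge (max (max (Real.exp n) (25 ^ n))
    (max (2 * C₂ / c₁) (2 * |B| * 25 ^ n * (8 * n) ^ M / (ε * c₁))))
  have hP1 : Real.exp n ≤ P := (le_max_left _ _).trans ((le_max_left _ _).trans hPbig)
  have hP2 : (25 : ℝ) ^ n ≤ P := (le_max_right _ _).trans ((le_max_left _ _).trans hPbig)
  have hP3 : 2 * C₂ / c₁ ≤ P := (le_max_left _ _).trans ((le_max_right _ _).trans hPbig)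
  have hP4 : 2 * |B| * 25 ^ n * (8 * n) ^ M / (ε * c₁) ≤ P :=
    (le_max_right _ _).trans ((le_max_right _ _).trans hPbig)
  have hP' : (1 : ℝ) ≤ P := le_trans (one_le_pow₀ (by norm_num)) hP2
  have hP : 1 ≤ P := by exact_mod_cast hP'
  have hPpos : (0 : ℝ) < P := by linarith
  set N : ℝ := 2 * (P : ℝ) ^ 4 * Real.log P / n with hN
  have hlog : (n : ℝ) ≤ Real.log P := by
    rw [Real.le_log_iff_exp_le hPpos]
    exact hP1
  have hNP : (P : ℝ) ^ 4 ≤ N := by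
    rw [hN, le_div_iff₀ (by linarith)]
    have : 0 < (P : ℝ) ^ 4 := by positivity
    nlinarith
  have hN1 : 1 ≤ N := (one_le_pow₀ hP').trans hNP
  have hN0 : 0 < N := by linarith
  set D : ℕ := P ^ 2 with hDdef
  have hD1 : 1 ≤ D := Nat.one_le_pow _ _ hP
  have hDr : (D : ℝ) = (P : ℝ) ^ 2 := by rw [hDdef]; push_cast; rfl
  set s := box n (2 * D) with hs
  have hcard : (s.card : ℝ) ≤ 25 ^ n * (P : ℝ) ^ (4 * n) := by
    rw [hs, card_box]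
    push_cast
    rw [hDr]
    have h1 : (2 * (2 * (P : ℝ) ^ 2) + 1) ≤ 5 * (P : ℝ) ^ 2 := by nlinarith
    calc (2 * (2 * (P : ℝ) ^ 2) + 1) ^ (2 * n) ≤ (5 * (P : ℝ) ^ 2) ^ (2 * n) := by gcongr
      _ = 25 ^ n * (P : ℝ) ^ (4 * n) := by
        rw [mul_pow, ← pow_mul, pow_mul 5 2 n]
        norm_num
        congr 1
        ring
  have hcardpos : (0 : ℝ) < s.card := by
    rw [hs, card_box]
    positivity
  set η : ℝ := ε / (s.card * (8 * n * N) ^ M) with hη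
  have hηpos : 0 < η := by positivity
  refine ⟨s, fun q => ((N * t (col q) : ℝ) : ℂ) • pt (D : ℝ) q,
    fun q => ((η * Real.exp (-(N * t (col q) * ((‖pt (D : ℝ) q‖ ^ 2 + 1) / 2))) : ℝ) : ℂ), ?_, ?_⟩
  · -- upper bound
    intro k hk
    have hterm : ∀ q ∈ s, ‖((η * Real.exp (-(N * t (col q) * ((‖pt (D : ℝ) q‖ ^ 2 + 1) / 2))) : ℝ) : ℂ)‖ *
        ‖((N * t (col q) : ℝ) : ℂ) • pt (D : ℝ) q‖ ^ k *
        Real.exp ‖((N * t (col q) : ℝ) : ℂ) • pt (D : ℝ) q‖ ≤ η * (8 * n * N) ^ M := by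
      intro q hq
      have htq1 := ht1 (col q)
      have htq2 := ht2 (col q)
      have h0 : 0 ≤ N * t (col q) := by positivity
      have h1 : ‖((N * t (col q) : ℝ) : ℂ) • pt (D : ℝ) q‖ = N * t (col q) * ‖pt (D : ℝ) q‖ := by
        rw [norm_smul, Complex.norm_real, Real.norm_eq_abs, abs_of_nonneg h0]
      have h2 : ‖((η * Real.exp (-(N * t (col q) * ((‖pt (D : ℝ) q‖ ^ 2 + 1) / 2))) : ℝ) : ℂ)‖ =
          η * Real.exp (-(N * t (col q) * ((‖pt (D : ℝ) q‖ ^ 2 + 1) / 2))) := by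
        rw [Complex.norm_real, Real.norm_eq_abs, abs_of_nonneg (by positivity)]
      have h3 := norm_pt_le hn hD1 hq
      rw [h1, h2]
      have h4 : N * t (col q) * ‖pt (D : ℝ) q‖ ≤ 8 * n * N := by
        calc N * t (col q) * ‖pt (D : ℝ) q‖ ≤ N * 2 * (4 * n) := by gcongr
          _ = 8 * n * N := by ring
      have h5 : (N * t (col q) * ‖pt (D : ℝ) q‖) ^ k ≤ (8 * n * N) ^ M := by
        calc (N * t (col q) * ‖pt (D : ℝ) q‖) ^ k ≤ (8 * n * N) ^ k := by gcongr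
          _ ≤ (8 * n * N) ^ M := by
            apply pow_le_pow_right₀ _ hk
            nlinarith
      have h6 : Real.exp (-(N * t (col q) * ((‖pt (D : ℝ) q‖ ^ 2 + 1) / 2))) *
          Real.exp (N * t (col q) * ‖pt (D : ℝ) q‖) ≤ 1 := by
        rw [← Real.exp_add, Real.exp_le_one_iff]
        have h7 : -(N * t (col q) * ((‖pt (D : ℝ) q‖ ^ 2 + 1) / 2)) +
            N * t (col q) * ‖pt (D : ℝ) q‖ = -(N * t (col q) * ((‖pt (D : ℝ) q‖ - 1) ^ 2 / 2)) := by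
          ring
        rw [h7]
        have : 0 ≤ N * t (col q) * ((‖pt (D : ℝ) q‖ - 1) ^ 2 / 2) := by positivity
        linarith
      calc η * Real.exp (-(N * t (col q) * ((‖pt (D : ℝ) q‖ ^ 2 + 1) / 2))) *
            (N * t (col q) * ‖pt (D : ℝ) q‖) ^ k * Real.exp (N * t (col q) * ‖pt (D : ℝ) q‖)
          = η * (N * t (col q) * ‖pt (D : ℝ) q‖) ^ k *
            (Real.exp (-(N * t (col q) * ((‖pt (D : ℝ) q‖ ^ 2 + 1) / 2))) *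
              Real.exp (N * t (col q) * ‖pt (D : ℝ) q‖)) := by ring
        _ ≤ η * (8 * n * N) ^ M * 1 := by gcongr
        _ = η * (8 * n * N) ^ M := mul_one _
    refine (Finset.sum_le_sum hterm).trans ?_
    rw [Finset.sum_const, nsmul_eq_mul, hη]
    apply le_of_eq
    field_simp
  · -- lower bound
    intro ζ v hζ hv hb
    obtain ⟨i, hi⟩ := stage_lower hn t c₀ hc₀.le hV ht1 ht2 col hcol P hP N hN ζ v hζ hv k₀
    set k := k₀ + (i : ℕ) with hk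
    have hkle : k ≤ k₀ + K := by have := i.2; omega
    refine ⟨k, hkle, ?_⟩
    have hβ1 : ‖⟪ζ, v⟫_ℂ‖ ≤ 1 := by
      refine (norm_inner_le_norm _ _).trans ?_
      rw [hζ, one_mul]
      exact hv
    -- rewrite the sum
    have hsum : ∑ q ∈ s, ((η * Real.exp (-(N * t (col q) * ((‖pt (D : ℝ) q‖ ^ 2 + 1) / 2))) : ℝ) : ℂ) *
        ⟪((N * t (col q) : ℝ) : ℂ) • pt (D : ℝ) q, v⟫_ℂ ^ k *
        Complex.exp ⟪((N * t (col q) : ℝ) : ℂ) • pt (D : ℝ) q, ζ⟫_ℂ =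
        ((η * N ^ k : ℝ) : ℂ) * ∑ q ∈ s, ((t (col q) : ℂ) * ⟪pt (D : ℝ) q, v⟫_ℂ) ^ k *
          Complex.exp (((N * t (col q) : ℝ) : ℂ) * (⟪pt (D : ℝ) q, ζ⟫_ℂ -
            (((‖pt (D : ℝ) q‖ ^ 2 + 1) / 2 : ℝ) : ℂ))) := by
      rw [Finset.mul_sum]
      refine Finset.sum_congr rfl fun q _ => ?_
      rw [inner_smul_left, inner_smul_left, Complex.conj_ofReal]
      have h1 : Complex.exp (((N * t (col q) : ℝ) : ℂ) * (⟪pt (D : ℝ) q, ζ⟫_ℂ -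
            (((‖pt (D : ℝ) q‖ ^ 2 + 1) / 2 : ℝ) : ℂ))) =
          ((Real.exp (-(N * t (col q) * ((‖pt (D : ℝ) q‖ ^ 2 + 1) / 2))) : ℝ) : ℂ) *
            Complex.exp (((N * t (col q) : ℝ) : ℂ) * ⟪pt (D : ℝ) q, ζ⟫_ℂ) := by
        rw [Complex.ofReal_exp, ← Complex.exp_add]
        congr 1
        push_cast
        ring
      rw [h1]
      push_cast
      ring
    rw [hsum, norm_mul, Complex.norm_real, Real.norm_eq_abs, abs_of_nonneg (by positivity)]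
    -- numerical lower bound
    have hE0 : 0 ≤ 1 / (P : ℝ) - 25 ^ n / (P : ℝ) ^ 2 := by
      rw [sub_nonneg, div_le_div_iff₀ (by positivity) hPpos]
      nlinarith
    have hlow : c₁ / (2 * P) ≤ ‖⟪ζ, v⟫_ℂ‖ ^ k * (c₀ * (1 / (P : ℝ) - 25 ^ n / (P : ℝ) ^ 2)) -
        2 ^ k * (k : ℕ) * (4 * n : ℝ) ^ k *
          ((K * (n * (8 * n)) + (4 * n + 1) * 25 ^ n) / (P : ℝ) ^ 2) := by
      have h1 : (1 / (m : ℝ)) ^ (k₀ + K) ≤ ‖⟪ζ, v⟫_ℂ‖ ^ k := by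
        calc (1 / (m : ℝ)) ^ (k₀ + K) ≤ (1 / (m : ℝ)) ^ k := by
              apply pow_le_pow_of_le_one (by positivity) _ hkle
              rw [div_le_one (by linarith)]
              exact hm'
          _ ≤ ‖⟪ζ, v⟫_ℂ‖ ^ k := by gcongr
      have h2 : c₁ * (1 / (P : ℝ) - 25 ^ n / (P : ℝ) ^ 2) ≤
          ‖⟪ζ, v⟫_ℂ‖ ^ k * (c₀ * (1 / (P : ℝ) - 25 ^ n / (P : ℝ) ^ 2)) := by
        rw [hc₁, mul_assoc]
        gcongr
      have h3 : 2 ^ k * (k : ℕ) * (4 * n : ℝ) ^ k *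
          ((K * (n * (8 * n)) + (4 * n + 1) * 25 ^ n) / (P : ℝ) ^ 2) ≤
          2 ^ (k₀ + K) * (k₀ + K : ℕ) * (4 * n : ℝ) ^ (k₀ + K) *
          ((K * (n * (8 * n)) + (4 * n + 1) * 25 ^ n) / (P : ℝ) ^ 2) := by
        have h31 : (2 : ℝ) ^ k ≤ 2 ^ (k₀ + K) := pow_le_pow_right₀ (by norm_num) hkle
        have h32 : (4 * n : ℝ) ^ k ≤ (4 * n : ℝ) ^ (k₀ + K) :=
          pow_le_pow_right₀ (by linarith) hkle
        have h33 : ((k : ℕ) : ℝ) ≤ ((k₀ + K : ℕ) : ℝ) := by exact_mod_cast hkle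
        gcongr
      have h4 : c₁ / (2 * P) ≤ c₁ * (1 / (P : ℝ) - 25 ^ n / (P : ℝ) ^ 2) -
          2 ^ (k₀ + K) * (k₀ + K : ℕ) * (4 * n : ℝ) ^ (k₀ + K) *
          ((K * (n * (8 * n)) + (4 * n + 1) * 25 ^ n) / (P : ℝ) ^ 2) := by
        have h5 : c₁ * (1 / (P : ℝ) - 25 ^ n / (P : ℝ) ^ 2) -
          2 ^ (k₀ + K) * (k₀ + K : ℕ) * (4 * n : ℝ) ^ (k₀ + K) *
          ((K * (n * (8 * n)) + (4 * n + 1) * 25 ^ n) / (P : ℝ) ^ 2) =
          c₁ / P - C₂ / (P : ℝ) ^ 2 := by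
          rw [hC₂]
          ring
        rw [h5]
        have h6 : C₂ / (P : ℝ) ^ 2 ≤ c₁ / (2 * P) := by
          rw [div_le_iff₀ hc₁pos] at hP3
          rw [div_le_div_iff₀ (by positivity) (by positivity)]
          nlinarith
        have h7 : c₁ / (2 * P) + c₁ / (2 * P) = c₁ / (P : ℝ) := by
          field_simp
          ring
        linarith
      linarith
    have hfin := hlow.trans hi
    -- final inequality
    have hηN : ε * (P : ℝ) ^ 4 / (25 ^ n * (8 * n) ^ M) ≤ η * N ^ k := by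
      have h1 : N ^ M * N ^ (n + 1) ≤ N ^ k := by
        rw [← pow_add]
        exact pow_le_pow_right₀ hN1 (by omega)
      have h2 : ε / ((25 ^ n * (P : ℝ) ^ (4 * n)) * (8 * n * N) ^ M) ≤ η := by
        rw [hη]
        gcongr
      have h3 : ((P : ℝ) ^ 4) ^ (n + 1) ≤ N ^ (n + 1) := by gcongr
      calc ε * (P : ℝ) ^ 4 / (25 ^ n * (8 * n) ^ M)
          = ε / ((25 ^ n * (P : ℝ) ^ (4 * n)) * (8 * n * N) ^ M) * (N ^ M * ((P : ℝ) ^ 4) ^ (n + 1)) := by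
            rw [mul_pow (8 * (n : ℝ)) N M, ← pow_mul, show 4 * (n + 1) = 4 * n + 4 by ring, pow_add]
            field_simp
        _ ≤ ε / ((25 ^ n * (P : ℝ) ^ (4 * n)) * (8 * n * N) ^ M) * (N ^ M * N ^ (n + 1)) := by
            gcongr
        _ ≤ η * N ^ k := by gcongr
    have hB : B ≤ ε * (P : ℝ) ^ 4 / (25 ^ n * (8 * n) ^ M) * (c₁ / (2 * P)) := by
      have h1 : ε * (P : ℝ) ^ 4 / (25 ^ n * (8 * n) ^ M) * (c₁ / (2 * P)) =
          (P : ℝ) ^ 3 * (ε * c₁) / (2 * 25 ^ n * (8 * n) ^ M) := by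
        field_simp
      rw [h1, le_div_iff₀ (by positivity)]
      rw [div_le_iff₀ (by positivity)] at hP4
      have h2 : (P : ℝ) ≤ (P : ℝ) ^ 3 := le_self_pow₀ hP' (by norm_num)
      have h3 : B * (2 * 25 ^ n * (8 * n) ^ M) ≤ |B| * (2 * 25 ^ n * (8 * n) ^ M) := by
        gcongr
        exact le_abs_self B
      have h4 : (P : ℝ) * (ε * c₁) ≤ (P : ℝ) ^ 3 * (ε * c₁) := by gcongr
      linarith
    refine hB.trans ?_
    gcongr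

end Pool.Agent.V1173.NatBd
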