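import Pool.Agent.V1173.NatBd.Stage

/-!
# Sums of exponentials

Helper file for `MP_ca9574_an`.
-/

open Finset Metric

namespace Pool.Agent.V1173.NatBd

open scoped InnerProductSpace

variable {n : ℕ} {ι : Type}

/-- A finite exponential sum. -/
noncomputable def ES (s : Finset ι) (w : ι → Cn n) (c : ι → ℂ) (z : Cn n) : ℂ :=
  ∑ q ∈ s, c q * Complex.exp ⟪w q, z⟫_ℂ

/-- Weighted size of the coefficients. -/
noncomputable def wt (s : Finset ι) (w : ι → Cn n) (c : ι → ℂ) (k : ℕ) : ℝ :=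
  ∑ q ∈ s, ‖c q‖ * ‖w q‖ ^ k * Real.exp ‖w q‖

theorem wt_nonneg (s : Finset ι) (w : ι → Cn n) (c : ι → ℂ) (k : ℕ) : 0 ≤ wt s w c k :=
  Finset.sum_nonneg fun _ _ => by positivity

theorem norm_exp_inner_le (w z : Cn n) (hz : ‖z‖ ≤ 1) :
    ‖Complex.exp ⟪w, z⟫_ℂ‖ ≤ Real.exp ‖w‖ := by
  rw [Complex.norm_exp, Real.exp_le_exp]
  refine (Complex.re_le_norm _).trans ((norm_inner_le_norm _ _).trans ?_)
  exact mul_le_of_le_one_right (norm_nonneg _) hz

theorem ES_norm_le (s : Finset ι) (w : ι → Cn n) (c : ι → ℂ) (z : Cn n) (hz : ‖z‖ ≤ 1) :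
    ‖ES s w c z‖ ≤ wt s w c 0 := by
  refine (norm_sum_le _ _).trans (Finset.sum_le_sum fun q _ => ?_)
  rw [norm_mul, pow_zero, mul_one]
  gcongr
  exact norm_exp_inner_le _ _ hz

/-- the derivative of `ES` -/
noncomputable def ES' (s : Finset ι) (w : ι → Cn n) (c : ι → ℂ) (z : Cn n) : Cn n →L[ℂ] ℂ :=
  ∑ q ∈ s, (c q * Complex.exp ⟪w q, z⟫_ℂ) • innerSL ℂ (w q)

theorem ES_hasFDerivAt (s : Finset ι) (w : ι → Cn n) (c : ι → ℂ) (z : Cn n) :
    HasFDerivAt (ES s w c) (ES' s w c z) z := by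
  unfold ES ES'
  refine HasFDerivAt.fun_sum fun q _ => ?_
  have h1 : HasFDerivAt (fun z : Cn n => ⟪w q, z⟫_ℂ) (innerSL ℂ (w q)) z :=
    (innerSL ℂ (w q)).hasFDerivAt
  have h2 := (h1.cexp).const_mul (c q)
  rw [smul_smul] at h2
  exact h2

theorem ES'_apply (s : Finset ι) (w : ι → Cn n) (c : ι → ℂ) (z v : Cn n) :
    ES' s w c z v = ES s w (fun q => c q * ⟪w q, v⟫_ℂ) z := by
  unfold ES ES'
  rw [_root_.sum_apply]
  refine Finset.sum_congr rfl fun q _ => ?_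
  simp only [_root_.smul_apply, innerSL_apply_apply, smul_eq_mul]
  ring

theorem ES'_norm_le (s : Finset ι) (w : ι → Cn n) (c : ι → ℂ) (z : Cn n) (hz : ‖z‖ ≤ 1) :
    ‖ES' s w c z‖ ≤ wt s w c 1 := by
  refine (norm_sum_le _ _).trans (Finset.sum_le_sum fun q _ => ?_)
  rw [norm_smul, norm_mul, innerSL_apply_norm, pow_one]
  have := norm_exp_inner_le (w q) z hz
  calc ‖c q‖ * ‖Complex.exp ⟪w q, z⟫_ℂ‖ * ‖w q‖ ≤ ‖c q‖ * Real.exp ‖w q‖ * ‖w q‖ := by gcongr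
    _ = _ := by ring

/-- A sequence of exponential sums is admissible. -/
def Adm (s : ℕ → Finset ι) (w : ℕ → ι → Cn n) (c : ℕ → ι → ℂ) : Prop :=
  ∀ k, Summable fun j => wt (s j) (w j) (c j) k

theorem wt_mul_inner_le (s : Finset ι) (w : ι → Cn n) (c : ι → ℂ) (v : Cn n) (k : ℕ) :
    wt s w (fun q => c q * ⟪w q, v⟫_ℂ) k ≤ ‖v‖ * wt s w c (k + 1) := by
  unfold wt
  rw [Finset.mul_sum]
  refine Finset.sum_le_sum fun q _ => ?_
  rw [norm_mul]
  have h1 := norm_inner_le_norm (𝕜 := ℂ) (w q) v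
  calc ‖c q‖ * ‖⟪w q, v⟫_ℂ‖ * ‖w q‖ ^ k * Real.exp ‖w q‖
      ≤ ‖c q‖ * (‖w q‖ * ‖v‖) * ‖w q‖ ^ k * Real.exp ‖w q‖ := by gcongr
    _ = _ := by ring

theorem Adm.mul_inner {s : ℕ → Finset ι} {w : ℕ → ι → Cn n} {c : ℕ → ι → ℂ} (h : Adm s w c)
    (v : Cn n) : Adm s w (fun j q => c j q * ⟪w j q, v⟫_ℂ) := by
  intro k
  refine Summable.of_nonneg_of_le (fun j => wt_nonneg _ _ _ _)
    (fun j => wt_mul_inner_le (s j) (w j) (c j) v k) ?_
  exact (h (k + 1)).mul_left _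

/-- The infinite sum. -/
noncomputable def FS (s : ℕ → Finset ι) (w : ℕ → ι → Cn n) (c : ℕ → ι → ℂ) (z : Cn n) : ℂ :=
  ∑' j, ES (s j) (w j) (c j) z

theorem FS_continuousOn {s : ℕ → Finset ι} {w : ℕ → ι → Cn n} {c : ℕ → ι → ℂ} (h : Adm s w c) :
    ContinuousOn (FS s w c) (closedBall 0 1) := by
  unfold FS
  refine continuousOn_tsum (u := fun j => wt (s j) (w j) (c j) 0) (fun j => ?_) (h 0)
    (fun j z hz => ?_)
  · exact fun z _ => (ES_hasFDerivAt (s j) (w j) (c j) z).continuousAt.continuousWithinAt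
  · exact ES_norm_le _ _ _ _ (by simpa using hz)

theorem FS_hasFDerivAt {s : ℕ → Finset ι} {w : ℕ → ι → Cn n} {c : ℕ → ι → ℂ} (h : Adm s w c)
    {z : Cn n} (hz : z ∈ ball (0 : Cn n) 1) :
    HasFDerivAt (FS s w c) (∑' j, ES' (s j) (w j) (c j) z) z := by
  unfold FS
  refine hasFDerivAt_tsum_of_isPreconnected (u := fun j => wt (s j) (w j) (c j) 1) (h 1)
    isOpen_ball (convex_ball _ _).isPreconnected
    (fun j z _ => ES_hasFDerivAt (s j) (w j) (c j) z) (fun j z hz => ?_)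
    (x₀ := 0) (by simp) ?_ hz
  · exact ES'_norm_le _ _ _ _ (by simpa using (mem_ball_zero_iff.mp hz).le)
  · refine Summable.of_norm_bounded (h 0) (fun j => ES_norm_le _ _ _ _ (by simp))

theorem FS_fderiv_apply {s : ℕ → Finset ι} {w : ℕ → ι → Cn n} {c : ℕ → ι → ℂ} (h : Adm s w c)
    {z : Cn n} (hz : z ∈ ball (0 : Cn n) 1) (v : Cn n) :
    fderiv ℂ (FS s w c) z v = FS s w (fun j q => c j q * ⟪w j q, v⟫_ℂ) z := by
  rw [(FS_hasFDerivAt h hz).fderiv]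
  have hsum : Summable fun j => ES' (s j) (w j) (c j) z :=
    Summable.of_norm_bounded (h 1) (fun j => ES'_norm_le _ _ _ _ (mem_ball_zero_iff.mp hz).le)
  have h1 := (ContinuousLinearMap.apply ℂ ℂ v).map_tsum hsum
  simp only [ContinuousLinearMap.apply_apply] at h1
  rw [h1]
  unfold FS
  refine tsum_congr fun j => ?_
  exact ES'_apply _ _ _ _ _

/-- Coefficients after `k` derivatives in the direction `b`. -/
theorem Adm.mul_inner_pow {s : ℕ → Finset ι} {w : ℕ → ι → Cn n} {c : ℕ → ι → ℂ} (h : Adm s w c)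
    (v : Cn n) (k : ℕ) : Adm s w (fun j q => c j q * ⟪w j q, v⟫_ℂ ^ k) := by
  induction k with
  | zero => simpa using h
  | succ k ih =>
    have := ih.mul_inner v
    refine (iff_of_eq ?_).mp this
    congr 1
    funext j q
    ring

/-- Along a line, derivatives are computed termwise. -/
theorem FS_line_hasDerivAt {s : ℕ → Finset ι} {w : ℕ → ι → Cn n} {c : ℕ → ι → ℂ}
    (h : Adm s w c) (a b : Cn n) (k : ℕ) {l : ℂ} (hl : a + l • b ∈ ball (0 : Cn n) 1) :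
    HasDerivAt (fun l : ℂ => FS s w (fun j q => c j q * ⟪w j q, b⟫_ℂ ^ k) (a + l • b))
      (FS s w (fun j q => c j q * ⟪w j q, b⟫_ℂ ^ (k + 1)) (a + l • b)) l := by
  have h1 := (FS_hasFDerivAt (h.mul_inner_pow b k) hl)
  have h2 : HasDerivAt (fun l : ℂ => a + l • b) b l := by
    have := ((hasDerivAt_id l).smul_const b).const_add a
    simpa using this
  have h3 := h1.comp_hasDerivAt l h2
  have h4 := FS_fderiv_apply (h.mul_inner_pow b k) hl b
  rw [h1.fderiv] at h4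
  rw [h4] at h3
  have h5 : (fun j q => c j q * ⟪w j q, b⟫_ℂ ^ k * ⟪w j q, b⟫_ℂ) =
      (fun j q => c j q * ⟪w j q, b⟫_ℂ ^ (k + 1)) := by
    funext j q
    ring
  rw [h5] at h3
  exact h3

/-- Bounds for derivatives of the pieces. -/
theorem ES_pow_norm_le (s : Finset ι) (w : ι → Cn n) (c : ι → ℂ) (k : ℕ) (z v : Cn n)
    (hz : ‖z‖ ≤ 1) (hv : ‖v‖ ≤ 1) :
    ‖ES s w (fun q => c q * ⟪w q, v⟫_ℂ ^ k) z‖ ≤ wt s w c k := by
  refine (norm_sum_le _ _).trans (Finset.sum_le_sum fun q _ => ?_)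
  rw [norm_mul, norm_mul, norm_pow]
  have h1 := norm_exp_inner_le (w q) z hz
  have h2 : ‖⟪w q, v⟫_ℂ‖ ≤ ‖w q‖ := (norm_inner_le_norm _ _).trans
    (mul_le_of_le_one_right (norm_nonneg _) hv)
  gcongr

/-- The choice of all the stages. -/
theorem exists_data (hn : 0 < n) :
    ∃ (s : ℕ → Finset (Q n)) (w : ℕ → Q n → Cn n) (c : ℕ → Q n → ℂ), Adm s w c ∧
      ∀ (j : ℕ) (ζ v : Cn n), ‖ζ‖ = 1 → ‖v‖ ≤ 1 → 1 / ((j : ℝ) + 1) ≤ ‖⟪ζ, v⟫_ℂ‖ →
        ∃ k : ℕ, ((j : ℝ) + 1) ^ (k + 1) * k.factorial ≤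
          ‖FS s w (fun j q => c j q * ⟪w j q, v⟫_ℂ ^ k) ζ‖ := by
  classical
  have h1 : ∀ M j : ℕ, ∃ kmax : ℕ, M ≤ kmax ∧
      ∀ B : ℝ, ∃ (s : Finset (Q n)) (w : Q n → Cn n) (c : Q n → ℂ),
      (∀ k ≤ M, wt s w c k ≤ (1 / 2) ^ j) ∧
      ∀ ζ v : Cn n, ‖ζ‖ = 1 → ‖v‖ ≤ 1 → 1 / ((j : ℝ) + 1) ≤ ‖⟪ζ, v⟫_ℂ‖ →
        ∃ k, k ≤ kmax ∧ B ≤ ‖ES s w (fun q => c q * ⟪w q, v⟫_ℂ ^ k) ζ‖ := by
    intro M j
    obtain ⟨kmax, hk, h⟩ := stage hn M (j + 1) (Nat.succ_pos j) ((1 / 2) ^ j) (by positivity)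
    refine ⟨kmax, hk, fun B => ?_⟩
    obtain ⟨s, w, c, h2, h3⟩ := h B
    refine ⟨s, w, c, h2, ?_⟩
    intro ζ v hζ hv hb
    have := h3 ζ v hζ hv (by push_cast; exact hb)
    exact this
  choose κ hκ hdata using h1
  let Ms : ℕ → ℕ := fun j => Nat.rec 0 (fun j M => κ M j + 1) j
  have hMs : ∀ j, Ms (j + 1) = κ (Ms j) j + 1 := fun j => rfl
  have hMlt : ∀ j, Ms j < Ms (j + 1) := by
    intro j
    rw [hMs]
    have := hκ (Ms j) j
    omega
  have hMmono : StrictMono Ms := strictMono_nat_of_lt_succ hMlt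
  choose s w c hs hlow using fun j => hdata (Ms j) j
  let Bof : ℕ → (ℕ → ℝ) → ℝ := fun j S =>
    ∑ k ∈ Finset.range (Ms (j + 1) + 1), (((j : ℝ) + 1) ^ (k + 1) * k.factorial + S k + 2)
  let S : ℕ → (ℕ → ℝ) := fun j => Nat.rec (fun _ => 0)
    (fun j S k => S k + wt (s j (Bof j S)) (w j (Bof j S)) (c j (Bof j S)) k) j
  have hS : ∀ j k, S (j + 1) k = S j k +
      wt (s j (Bof j (S j))) (w j (Bof j (S j))) (c j (Bof j (S j))) k := fun j k => rfl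
  let B : ℕ → ℝ := fun j => Bof j (S j)
  have hSsum : ∀ j k, S j k = ∑ i ∈ Finset.range j, wt (s i (B i)) (w i (B i)) (c i (B i)) k := by
    intro j k
    induction j with
    | zero => rfl
    | succ j ih => rw [hS, ih, Finset.sum_range_succ]
  have hS0 : ∀ j k, 0 ≤ S j k := by
    intro j k
    rw [hSsum]
    exact Finset.sum_nonneg fun i _ => wt_nonneg _ _ _ _
  have hadm : Adm (fun j => s j (B j)) (fun j => w j (B j)) (fun j => c j (B j)) := by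
    intro k
    refine Summable.of_norm_bounded_eventually_nat (g := fun j => (1 / 2 : ℝ) ^ j)
      summable_geometric_two ?_
    filter_upwards [Filter.eventually_ge_atTop k] with j hj
    rw [Real.norm_eq_abs, abs_of_nonneg (wt_nonneg _ _ _ _)]
    exact hs j (B j) k (hj.trans hMmono.le_apply)
  refine ⟨fun j => s j (B j), fun j => w j (B j), fun j => c j (B j), hadm, ?_⟩
  intro j ζ v hζ hv hb
  obtain ⟨k, hk, hkB⟩ := hlow j (B j) ζ v hζ hv hb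
  refine ⟨k, ?_⟩
  have hk' : k < Ms (j + 1) := by rw [hMs]; omega
  set H : ℕ → ℂ := fun i => ES (s i (B i)) (w i (B i)) (fun q => c i (B i) q * ⟪w i (B i) q, v⟫_ℂ ^ k) ζ
    with hH
  have hHle : ∀ i, ‖H i‖ ≤ wt (s i (B i)) (w i (B i)) (c i (B i)) k := fun i =>
    ES_pow_norm_le _ _ _ k ζ v hζ.le hv
  have hHsum : Summable H := Summable.of_norm_bounded (hadm k) hHle
  have hFS : FS (fun j => s j (B j)) (fun j => w j (B j))
      (fun j q => c j (B j) q * ⟪w j (B j) q, v⟫_ℂ ^ k) ζ = ∑' i, H i := rfl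
  rw [hFS, ← hHsum.sum_add_tsum_nat_add (j + 1), Finset.sum_range_succ]
  have htail : ‖∑' i, H (i + (j + 1))‖ ≤ 2 := by
    refine tsum_of_norm_bounded hasSum_geometric_two fun i => ?_
    refine (hHle _).trans ((hs (i + (j + 1)) _ k ?_).trans ?_)
    · exact hk'.le.trans (hMmono.monotone (show j + 1 ≤ i + (j + 1) by omega))
    · exact pow_le_pow_of_le_one (by norm_num) (by norm_num) (by omega)
  have hhead : ‖∑ i ∈ Finset.range j, H i‖ ≤ S j k := by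
    rw [hSsum]
    exact (norm_sum_le _ _).trans (Finset.sum_le_sum fun i _ => hHle i)
  have hBj : ((j : ℝ) + 1) ^ (k + 1) * k.factorial + S j k + 2 ≤ B j := by
    have hmem : k ∈ Finset.range (Ms (j + 1) + 1) := Finset.mem_range.mpr (by omega)
    exact Finset.single_le_sum
      (f := fun k => (((j : ℝ) + 1) ^ (k + 1) * k.factorial + S j k + 2))
      (fun i _ => by have := hS0 j i; positivity) hmem
  have h4 : ‖H j‖ ≤ ‖∑ i ∈ Finset.range j, H i + H j + ∑' i, H (i + (j + 1))‖ +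
      ‖∑ i ∈ Finset.range j, H i‖ + ‖∑' i, H (i + (j + 1))‖ := by
    have h5 : H j = (∑ i ∈ Finset.range j, H i + H j + ∑' i, H (i + (j + 1))) -
        ∑ i ∈ Finset.range j, H i - ∑' i, H (i + (j + 1)) := by ring
    calc ‖H j‖ = ‖(∑ i ∈ Finset.range j, H i + H j + ∑' i, H (i + (j + 1))) -
        ∑ i ∈ Finset.range j, H i - ∑' i, H (i + (j + 1))‖ := by rw [← h5]
      _ ≤ _ := (norm_sub_le _ _).trans (by gcongr; exact norm_sub_le _ _)
  have h6 : B j ≤ ‖H j‖ := hkB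
  linarith

end Pool.Agent.V1173.NatBd
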